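import Pool.Agent.UL6.Stmts
import Pool.Agent.Helper77_UL5.CAP

set_option autoImplicit false

namespace Pool.Agent.UL6.H77

open MeasureTheory Set Pool.Agent.UL3 Pool.Agent.UL4 Pool.Agent.UL5
open Pool.Agent.UL5.H77 (cr_anti cr_self cr_add_r cr_sub_r cr_smul_r cr_add_l cr_sub_l cr_smul_l
  cr_neg_l cr_neg_r comb_int St Tri ph_comb tri_meas tri_vol tri_real tri_sub tri_cr)

/-- the hexagon and a set above it -/
theorem core {C : Set (ℝ × ℝ)} {l : ℝ} (h : PB C) (hl : 0 < l) (h1 : ((1, 0) : ℝ × ℝ) ∈ C)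
    (hA : ((-(l / 2), 1) : ℝ × ℝ) ∈ C) (hB : ((l / 2, 1) : ℝ × ℝ) ∈ C) (G : Set (ℝ × ℝ))
    (mG : MeasurableSet G) (sG : G ⊆ C) (yG : ∀ x ∈ G, 1 < x.2) :
    2 + l + 2 * (volume : Measure (ℝ × ℝ)).real G ≤ ar C := by
  have hfinC : (volume : Measure (ℝ × ℝ)) C ≠ ⊤ := h.cpt.measure_lt_top.ne
  have hm1 : ((-1, 0) : ℝ × ℝ) ∈ C := by
    have := h.sym _ h1
    have e : -((1, 0) : ℝ × ℝ) = (-1, 0) := by
      refine Prod.ext ?_ ?_
      · rfl
      · show -(0 : ℝ) = 0
        ring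
    rwa [e] at this
  have c1 : cr ((1, 0) : ℝ × ℝ) (l / 2, 1) = 1 := by simp only [cr]; ring
  have c2 : cr ((l / 2, 1) : ℝ × ℝ) (-(l / 2), 1) = l := by simp only [cr]; ring
  have c3 : cr ((-(l / 2), 1) : ℝ × ℝ) (-1, 0) = 1 := by simp only [cr]; ring
  have p1 : 0 < cr ((1, 0) : ℝ × ℝ) (l / 2, 1) := by rw [c1]; exact one_pos
  have p2 : 0 < cr ((l / 2, 1) : ℝ × ℝ) (-(l / 2), 1) := by rw [c2]; exact hl
  have p3 : 0 < cr ((-(l / 2), 1) : ℝ × ℝ) (-1, 0) := by rw [c3]; exact one_pos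
  have d1 : ∀ x ∈ Tri ((1, 0) : ℝ × ℝ) (l / 2, 1), 0 < x.2 ∧ x.2 < 1 ∧
      0 < cr x (l / 2, 1) ∧ 0 < cr x (-(l / 2), 1) := by
    rintro x ⟨z, ⟨b1, b2, b3⟩, rfl⟩
    rw [ph_comb]
    simp only [cr, Prod.fst_add, Prod.snd_add, Prod.smul_fst, Prod.smul_snd, smul_eq_mul]
    have := mul_pos b2 hl
    exact ⟨by linarith, by linarith, by linarith, by linarith⟩
  have d2 : ∀ x ∈ Tri ((l / 2, 1) : ℝ × ℝ) (-(l / 2), 1), 0 < x.2 ∧ x.2 < 1 ∧
      cr x (l / 2, 1) < 0 ∧ 0 < cr x (-(l / 2), 1) := by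
    rintro x ⟨z, ⟨b1, b2, b3⟩, rfl⟩
    rw [ph_comb]
    simp only [cr, Prod.fst_add, Prod.snd_add, Prod.smul_fst, Prod.smul_snd, smul_eq_mul]
    have := mul_pos b2 hl
    have := mul_pos b1 hl
    exact ⟨by linarith, by linarith, by linarith, by linarith⟩
  have d3 : ∀ x ∈ Tri ((-(l / 2), 1) : ℝ × ℝ) (-1, 0), 0 < x.2 ∧ x.2 < 1 ∧
      cr x (-(l / 2), 1) < 0 := by
    rintro x ⟨z, ⟨b1, b2, b3⟩, rfl⟩
    rw [ph_comb]
    simp only [cr, Prod.fst_add, Prod.snd_add, Prod.smul_fst, Prod.smul_snd, smul_eq_mul]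
    exact ⟨by linarith, by linarith, by linarith⟩
  have s1 := tri_sub h h1 hB
  have s2 := tri_sub h hB hA
  have s3 := tri_sub h hA hm1
  have m1 := tri_meas p1
  have m2 := tri_meas p2
  have m3 := tri_meas p3
  have v1 := tri_real p1
  have v2 := tri_real p2
  have v3 := tri_real p3
  rw [c1] at v1
  rw [c2] at v2
  rw [c3] at v3
  revert d1 d2 d3 s1 s2 s3 m1 m2 m3 v1 v2 v3
  generalize Tri ((1, 0) : ℝ × ℝ) (l / 2, 1) = T1
  generalize Tri ((l / 2, 1) : ℝ × ℝ) (-(l / 2), 1) = T2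
  generalize Tri ((-(l / 2), 1) : ℝ × ℝ) (-1, 0) = T3
  intro d1 d2 d3 s1 s2 s3 m1 m2 m3 v1 v2 v3
  have n1 : (volume : Measure (ℝ × ℝ)) T1 ≠ ⊤ := measure_ne_top_of_subset s1 hfinC
  have n2 : (volume : Measure (ℝ × ℝ)) T2 ≠ ⊤ := measure_ne_top_of_subset s2 hfinC
  have n3 : (volume : Measure (ℝ × ℝ)) T3 ≠ ⊤ := measure_ne_top_of_subset s3 hfinC
  have nG : (volume : Measure (ℝ × ℝ)) G ≠ ⊤ := measure_ne_top_of_subset sG hfinC
  set U : Set (ℝ × ℝ) := T1 ∪ T2 ∪ T3 ∪ G with hU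
  have hUC : U ⊆ C := union_subset (union_subset (union_subset s1 s2) s3) sG
  have hUm : MeasurableSet U := ((m1.union m2).union m3).union mG
  have hUv : (volume : Measure (ℝ × ℝ)).real U =
      1 + l / 2 + (volume : Measure (ℝ × ℝ)).real G := by
    rw [hU, measureReal_union ?_ mG
      (measure_ne_top_of_subset (union_subset (union_subset s1 s2) s3) hfinC) nG,
      measureReal_union ?_ m3 (measure_ne_top_of_subset (union_subset s1 s2) hfinC) n3,
      measureReal_union ?_ m2 n1 n2, v1, v2, v3]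
    · ring
    · rw [Set.disjoint_left]
      intro x hx hx'
      linarith [(d1 x hx).2.2.1, (d2 x hx').2.2.1]
    · rw [Set.disjoint_left]
      rintro x (hx | hx) hx'
      · linarith [(d1 x hx).2.2.2, (d3 x hx').2.2]
      · linarith [(d2 x hx).2.2.2, (d3 x hx').2.2]
    · rw [Set.disjoint_left]
      rintro x ((hx | hx) | hx) hx'
      · linarith [(d1 x hx).2.1, yG x hx']
      · linarith [(d2 x hx).2.1, yG x hx']
      · linarith [(d3 x hx).2.1, yG x hx']
  have hUp : ∀ x ∈ U, 0 < x.2 := by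
    rintro x (((hx | hx) | hx) | hx)
    · exact (d1 x hx).1
    · exact (d2 x hx).1
    · exact (d3 x hx).1
    · linarith [yG x hx]
  set W : Set (ℝ × ℝ) := (fun x => -x) ⁻¹' U with hW
  have hWm : MeasurableSet W := measurable_neg hUm
  have hWC : W ⊆ C := fun x hx => by
    have := h.sym _ (hUC hx)
    rwa [neg_neg] at this
  have hWv : (volume : Measure (ℝ × ℝ)).real W = (volume : Measure (ℝ × ℝ)).real U := by
    unfold Measure.real
    rw [hW]
    exact congrArg ENNReal.toReal (Measure.measure_preimage_neg volume U)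
  have hdis : Disjoint U W := by
    rw [Set.disjoint_left]
    intro x hx hx'
    have a1 := hUp x hx
    have a2 := hUp _ hx'
    rw [Prod.snd_neg] at a2
    linarith
  have hfinal : (volume : Measure (ℝ × ℝ)).real (U ∪ W) ≤ (volume : Measure (ℝ × ℝ)).real C :=
    measureReal_mono (union_subset hUC hWC) hfinC
  rw [measureReal_union hdis hWm (measure_ne_top_of_subset hUC hfinC)
    (measure_ne_top_of_subset hWC hfinC), hWv, hUv] at hfinal
  unfold ar
  linarith

/-- a translated triangle, possibly degenerate -/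
theorem ttri {C : Set (ℝ × ℝ)} (h : PB C) {a p q : ℝ × ℝ} (ha : a ∈ C) (hp : p ∈ C) (hq : q ∈ C)
    (hc : 0 ≤ cr (p - a) (q - a)) :
    ∃ E : Set (ℝ × ℝ), MeasurableSet E ∧ E ⊆ C ∧
      (volume : Measure (ℝ × ℝ)).real E = cr (p - a) (q - a) / 2 ∧
      ∀ x ∈ E, 0 < cr (p - a) (q - a) ∧ 0 < cr (p - a) (x - a) ∧ 0 < cr (x - a) (q - a) ∧
        ∃ s t : ℝ, 0 < s ∧ 0 < t ∧ x = a + s • (p - a) + t • (q - a) := by
  rcases hc.lt_or_eq with h0 | h0
  · refine ⟨(fun x => x + -a) ⁻¹' Tri (p - a) (q - a), ?_, ?_, ?_, ?_⟩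
    · exact (measurable_add_const (-a)) (tri_meas h0)
    · rintro x ⟨z, ⟨b1, b2, b3⟩, hz⟩
      rw [ph_comb] at hz
      have e : x = (1 - z.1 - z.2) • a + z.1 • p + z.2 • q := by
        have e1 : x = a + (z.1 • (p - a) + z.2 • (q - a)) := by
          rw [hz]
          show x = a + (x + -a)
          abel
        rw [e1]
        module
      rw [e]
      have := h.cvx.sum_mem (t := Finset.univ) (w := ![1 - z.1 - z.2, z.1, z.2])
        (z := ![a, p, q]) (by
          intro i _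
          fin_cases i
          · show 0 ≤ 1 - z.1 - z.2
            linarith
          · exact b1.le
          · exact b2.le) (by
          rw [Fin.sum_univ_three]
          show 1 - z.1 - z.2 + z.1 + z.2 = 1
          ring) (by
          intro i _
          fin_cases i
          · exact ha
          · exact hp
          · exact hq)
      rw [Fin.sum_univ_three] at this
      exact this
    · rw [← tri_real h0]
      unfold Measure.real
      exact congrArg ENNReal.toReal (measure_preimage_add_right volume (-a) (Tri (p - a) (q - a)))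
    · rintro x hx
      have hx' : x + -a ∈ Tri (p - a) (q - a) := hx
      have h2 := tri_cr h0 hx'
      rw [← sub_eq_add_neg] at h2
      refine ⟨h0, h2.1, h2.2, ?_⟩
      obtain ⟨z, ⟨b1, b2, b3⟩, hz⟩ := hx'
      rw [ph_comb] at hz
      refine ⟨z.1, z.2, b1, b2, ?_⟩
      rw [add_assoc, hz]
      abel
  · refine ⟨∅, MeasurableSet.empty, empty_subset _, ?_, ?_⟩
    · rw [← h0]
      simp
    · intro x hx
      exact absurd hx (notMem_empty x)

theorem pqa : PqaStmt := by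
  intro C l p p' h hl h1 hA hB hp hp' hp2 hp2'
  have one : ∀ q ∈ C, 1 ≤ q.2 → 2 + l + l * (q.2 - 1) ≤ ar C := by
    intro q hq hq2
    have hc : cr (((l / 2, 1) : ℝ × ℝ) - (-(l / 2), 1)) (q - (-(l / 2), 1)) = l * (q.2 - 1) := by
      simp only [cr, Prod.fst_sub, Prod.snd_sub]; ring
    obtain ⟨E, mE, sE, vE, xE⟩ := ttri h hA hB hq (by
      rw [hc]; exact mul_nonneg hl.le (by linarith))
    rw [hc] at vE xE
    have := core h hl h1 hA hB E mE sE (by
      intro x hx
      obtain ⟨b1, -, -, s, t, hs, ht, e⟩ := xE x hx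
      rw [e]
      simp only [Prod.fst_add, Prod.snd_add, Prod.fst_sub, Prod.snd_sub, Prod.smul_fst,
        Prod.smul_snd, smul_eq_mul]
      have hq3 : 0 < q.2 - 1 := (mul_pos_iff_of_pos_left hl).1 b1
      have := mul_pos ht hq3
      linarith)
    rw [vE] at this
    linarith
  refine ⟨?_, one p hp hp2, one p' hp' hp2'⟩
  have e0 : cr (p' - (-(l / 2), 1)) (p - (l / 2, 1)) =
      l * (p'.2 - 1) + cr (p' - (-(l / 2), 1)) (p - (-(l / 2), 1)) := by
    simp only [cr, Prod.fst_sub, Prod.snd_sub]; ring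
  rw [e0]
  by_cases hc0 : cr (p' - (-(l / 2), 1)) (p - (-(l / 2), 1)) ≤ 0
  · have := one p' hp' hp2'
    linarith
  push Not at hc0
  have hc : cr (((l / 2, 1) : ℝ × ℝ) - (-(l / 2), 1)) (p' - (-(l / 2), 1)) = l * (p'.2 - 1) := by
    simp only [cr, Prod.fst_sub, Prod.snd_sub]; ring
  obtain ⟨E, mE, sE, vE, xE⟩ := ttri h hA hB hp' (by
    rw [hc]; exact mul_nonneg hl.le (by linarith))
  obtain ⟨F, mF, sF, vF, xF⟩ := ttri h hA hp' hp hc0.le
  rw [hc] at vE xE
  have hfinC : (volume : Measure (ℝ × ℝ)) C ≠ ⊤ := h.cpt.measure_lt_top.ne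
  have := core h hl h1 hA hB (E ∪ F) (mE.union mF) (union_subset sE sF) (by
    rintro x (hx | hx)
    · obtain ⟨b1, -, -, s, t, hs, ht, e⟩ := xE x hx
      rw [e]
      simp only [Prod.fst_add, Prod.snd_add, Prod.fst_sub, Prod.snd_sub, Prod.smul_fst,
        Prod.smul_snd, smul_eq_mul]
      have hq3 : 0 < p'.2 - 1 := (mul_pos_iff_of_pos_left hl).1 b1
      have := mul_pos ht hq3
      linarith
    · obtain ⟨b1, -, -, s, t, hs, ht, e⟩ := xF x hx
      rw [e]
      simp only [Prod.fst_add, Prod.snd_add, Prod.fst_sub, Prod.snd_sub, Prod.smul_fst,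
        Prod.smul_snd, smul_eq_mul]
      by_cases hq3 : 0 < p'.2 - 1
      · have := mul_pos hs hq3
        have := mul_nonneg ht.le (sub_nonneg.2 hp2)
        linarith
      · have e1 : p'.2 = 1 := by linarith
        have hq4 : 0 < p.2 - 1 := by
          by_contra hq4
          have e2 : p.2 = 1 := by linarith
          simp only [cr, Prod.fst_sub, Prod.snd_sub, e1, e2] at b1
          linarith
        have := mul_pos ht hq4
        rw [e1]
        linarith)
  rw [measureReal_union ?_ mF (measure_ne_top_of_subset sE hfinC)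
    (measure_ne_top_of_subset sF hfinC), vE, vF] at this
  · linarith
  · rw [Set.disjoint_left]
    intro x hx hx'
    have a1 := (xE x hx).2.2.1
    have a2 := (xF x hx').2.1
    rw [cr_anti (x - (-(l / 2), 1)) (p' - (-(l / 2), 1))] at a2
    linarith

end Pool.Agent.UL6.H77
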